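import Mathlib
import Pool.Agent.H759R2.Kad.Props3
import Pool.Agent.H668R2.Kad.Phtr

/-!
Word lemma (task 06 of the project on Kadison's similarity problem for II_1 factors): averages of
products of two words.
-/

open scoped ComplexOrder InnerProductSpace ComplexConjugate
open Finset

noncomputable section

set_option linter.unusedSectionVars false

namespace H759R2.Kad

universe u v

namespace A06

/-- last letter -/
def lst {ι : Type} : ι → List ι → ι
  | i, [] => i
  | _, c :: l => lst c l

theorem split_nodup {α : Type} {s1 s2 : List α} {c : α} (h : (s1 ++ c :: s2).Nodup) :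
    s1.Nodup ∧ s2.Nodup ∧ c ∉ s1 ∧ c ∉ s2 ∧ ∀ a ∈ s1, a ∉ s2 := by
  rw [List.nodup_append, List.nodup_cons] at h
  obtain ⟨h1, ⟨h2, h3⟩, h4⟩ := h
  exact ⟨h1, h3, fun hc => h4 c hc c List.mem_cons_self rfl, h2,
    fun a ha ha' => h4 a ha a (List.mem_cons_of_mem _ ha') rfl⟩

section basic
variable {B : Type u} [CStarAlgebra B]

theorem nm2 {a b : B} (ha : ‖a‖ ≤ 1) (hb : ‖b‖ ≤ 1) : ‖a * b‖ ≤ 1 :=
  (norm_mul_le a b).trans (mul_le_one₀ ha (norm_nonneg _) hb)

theorem nms {a : B} (ha : ‖a‖ ≤ 1) : ‖star a‖ ≤ 1 := by rwa [norm_star]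

theorem nm3 {a y b : B} {r : ℝ} (ha : ‖a‖ ≤ 1) (hb : ‖b‖ ≤ 1) (hy : ‖y‖ ≤ r) :
    ‖a * y * b‖ ≤ r := by
  have hr : 0 ≤ r := (norm_nonneg y).trans hy
  calc ‖a * y * b‖ ≤ ‖a * y‖ * ‖b‖ := norm_mul_le _ _
    _ ≤ (‖a‖ * ‖y‖) * ‖b‖ := by gcongr; exact norm_mul_le _ _
    _ ≤ (1 * r) * 1 := by gcongr
    _ = r := by ring

variable {ι : Type} [Fintype ι] [DecidableEq ι]

theorem rword_append (x : CStarMatrix ι ι B) (g : ι → unitary B) (c : ι) (s2 : List ι) :
    ∀ (s1 : List ι) (i : ι), rword x g i (s1 ++ c :: s2) =
      rword x g i s1 * (x (lst i s1) c * (g c : B) * rword x g c s2)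
  | [], i => by simp only [List.nil_append, rword, lst, one_mul]
  | a :: l, i => by
    simp only [List.cons_append, rword, lst]
    rw [rword_append x g c s2 l a]
    simp only [mul_assoc]

omit [Fintype ι] [DecidableEq ι] in
theorem pword_append (p : ι → ι → ℝ) (c : ι) (s2 : List ι) :
    ∀ (s1 : List ι) (i : ι), pword p i (s1 ++ c :: s2) =
      pword p i s1 * p (lst i s1) c * pword p c s2
  | [], i => by simp only [List.nil_append, pword, lst, one_mul]
  | a :: l, i => by
    simp only [List.cons_append, pword, lst]
    rw [pword_append p c s2 l a]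
    ring

omit [Fintype ι] [DecidableEq ι] in
theorem pword_bd (p : ι → ι → ℝ) (h0 : ∀ i j, 0 ≤ p i j) (h1 : ∀ i j, p i j ≤ 1) :
    ∀ (l : List ι) (i : ι), 0 ≤ pword p i l ∧ pword p i l ≤ 1
  | [], i => by simp only [pword]; norm_num
  | a :: l, i => by
    simp only [pword]
    have h := pword_bd p h0 h1 l a
    exact ⟨mul_nonneg (h0 _ _) h.1, mul_le_one₀ (h1 _ _) h.1 h.2⟩

theorem rword_norm (x : CStarMatrix ι ι B) (g : ι → unitary B) (hx : ∀ i j, ‖x i j‖ ≤ 1) :
    ∀ (l : List ι) (i : ι), ‖rword x g i l‖ ≤ 1
  | [], _ => Col.norm_one_le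
  | c :: l, i => nm2 (nm2 (hx i c) (Col.norm_unitary_le _)) (rword_norm x g hx l c)

theorem rword_congr (x : CStarMatrix ι ι B) {g g' : ι → unitary B} :
    ∀ (l : List ι) (i : ι), (∀ a ∈ l, g a = g' a) → rword x g i l = rword x g' i l
  | [], _, _ => rfl
  | c :: l, i, h => by
    simp only [rword]
    rw [rword_congr x l c (fun a ha => h a (List.mem_cons_of_mem _ ha)), h c List.mem_cons_self]

theorem fav_norm {Ω : Type} [Fintype Ω] {V : Type*} [NormedAddCommGroup V] [NormedSpace ℂ V]
    (f : Ω → V) {C : ℝ} (hC : 0 ≤ C) (h : ∀ s, ‖f s‖ ≤ C) : ‖fav Ω f‖ ≤ C := by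
  unfold fav
  rw [norm_smul, norm_inv, Complex.norm_natCast]
  have h1 : ‖∑ s, f s‖ ≤ (Fintype.card Ω : ℝ) * C := by
    calc _ ≤ ∑ s, ‖f s‖ := norm_sum_le _ _
      _ ≤ ∑ _s : Ω, C := Finset.sum_le_sum (fun s _ => h s)
      _ = _ := by simp
  rcases Nat.eq_zero_or_pos (Fintype.card Ω) with h0 | h0
  · rw [h0]
    simp only [Nat.cast_zero, inv_zero, zero_mul]
    exact hC
  · have h2 : (0:ℝ) < Fintype.card Ω := by exact_mod_cast h0
    calc _ ≤ ((Fintype.card Ω : ℝ))⁻¹ * (Fintype.card Ω * C) := by gcongr
      _ = C := by field_simp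

theorem fav_sub {Ω : Type} [Fintype Ω] {V : Type*} [AddCommGroup V] [Module ℂ V]
    (f g : Ω → V) : fav Ω f - fav Ω g = fav Ω (fun s => f s - g s) := by
  unfold fav
  rw [Finset.sum_sub_distrib, smul_sub]

theorem fav_map {Ω : Type} [Fintype Ω] {V W : Type*} [AddCommGroup V] [Module ℂ V]
    [AddCommGroup W] [Module ℂ W] (L : V →ₗ[ℂ] W) (f : Ω → V) :
    L (fav Ω f) = fav Ω (fun s => L (f s)) := by
  unfold fav
  rw [map_smul, map_sum]

theorem fav_mul {Ω : Type} [Fintype Ω] (f : Ω → B) (a b : B) :
    a * fav Ω f * b = fav Ω (fun s => a * f s * b) := by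
  unfold fav
  rw [mul_smul_comm, smul_mul_assoc, Finset.mul_sum, Finset.sum_mul]

/-- average over one coordinate, with constant factors -/
theorem one_mul_sum {k : ℕ} (f : Fin (k + 1) → B) (a b : B) :
    ((k + 1 : ℂ))⁻¹ • ∑ t, a * f t * b = a * (((k + 1 : ℂ))⁻¹ • ∑ t, f t) * b := by
  rw [mul_smul_comm, smul_mul_assoc, Finset.mul_sum, Finset.sum_mul]

end basic

section words
variable {B : Type u} [CStarAlgebra B] {n : ℕ} (F : Fam B n) (X : Set B)

theorem isWord_mul {K1 K2 : ℕ} {c : Fin n} {y1 y2 : B} (h1 : F.IsWord X K1 c y1)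
    (h2 : F.IsWord X K2 c y2) : F.IsWord X (K1 + K2) c (y1 * y2) := by
  obtain ⟨l1, a1, b1, c1⟩ := h1
  obtain ⟨l2, a2, b2, c2⟩ := h2
  refine ⟨l1 ++ l2, ?_, ?_, ?_⟩
  · rw [List.length_append]; omega
  · rw [List.prod_append, b1, b2]
  · intro a ha
    rcases List.mem_append.mp ha with h | h
    · exact c1 a h
    · exact c2 a h

theorem isWord_mono {K1 K2 : ℕ} (hK : K1 ≤ K2) {c : Fin n} {y : B} (h : F.IsWord X K1 c y) :
    F.IsWord X K2 c y := by
  obtain ⟨l, a, b, d⟩ := h
  exact ⟨l, a.trans hK, b, d⟩

theorem isWord_one {c : Fin n} : F.IsWord X 0 c 1 :=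
  ⟨[], le_rfl, rfl, fun a ha => by simp at ha⟩

theorem isWord_single {c : Fin n} {a : B}
    (h : a ∈ X ∨ star a ∈ X ∨ ∃ b : Fin n, b < c ∧ ∃ s, a = F.g b s ∨ a = star (F.g b s : B)) :
    F.IsWord X 1 c a :=
  ⟨[a], by simp, by simp, fun a' ha => by
    rw [List.mem_singleton] at ha
    rw [ha]; exact h⟩

theorem isWord_rword (x : CStarMatrix (Fin n) (Fin n) B) (hx : ∀ i j, x i j ∈ X ∨ star (x i j) ∈ X)
    (s : F.Idx) (c : Fin n) : ∀ (l : List (Fin n)) (i : Fin n), (∀ a ∈ l, a < c) →
      F.IsWord X (2 * l.length) c (rword x (F.val s) i l)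
  | [], _, _ => isWord_one F X
  | a :: l, i, h => by
    have h1 : F.IsWord X 1 c (x i a) := isWord_single F X (by
      rcases hx i a with h | h
      · exact Or.inl h
      · exact Or.inr (Or.inl h))
    have h2 : F.IsWord X 1 c (F.val s a : B) := isWord_single F X
      (Or.inr (Or.inr ⟨a, h a List.mem_cons_self, s a, Or.inl rfl⟩))
    have h3 := isWord_rword x hx s c l a (fun b hb => h b (List.mem_cons_of_mem _ hb))
    have h4 := isWord_mul F X (isWord_mul F X h1 h2) h3
    refine isWord_mono F X ?_ h4
    rw [List.length_cons]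
    omega

theorem isWord_star_rword (x : CStarMatrix (Fin n) (Fin n) B)
    (hx : ∀ i j, x i j ∈ X ∨ star (x i j) ∈ X)
    (s : F.Idx) (c : Fin n) : ∀ (l : List (Fin n)) (i : Fin n), (∀ a ∈ l, a < c) →
      F.IsWord X (2 * l.length) c (star (rword x (F.val s) i l))
  | [], _, _ => by
    simp only [rword, star_one]
    exact isWord_one F X
  | a :: l, i, h => by
    have h1 : F.IsWord X 1 c (star (x i a)) := isWord_single F X (by
      rcases hx i a with h | h
      · exact Or.inr (Or.inl (by rwa [star_star]))
      · exact Or.inl h)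
    have h2 : F.IsWord X 1 c (star (F.val s a : B)) := isWord_single F X
      (Or.inr (Or.inr ⟨a, h a List.mem_cons_self, s a, Or.inr rfl⟩))
    have h3 := isWord_star_rword x hx s c l a (fun b hb => h b (List.mem_cons_of_mem _ hb))
    have h4 := isWord_mul F X h3 (isWord_mul F X h2 h1)
    have e : star (rword x (F.val s) i (a :: l)) =
        star (rword x (F.val s) a l) * (star (F.val s a : B) * star (x i a)) := by
      simp only [rword, star_mul]
    rw [e]
    refine isWord_mono F X ?_ h4
    rw [List.length_cons]
    omega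

end words

section main
variable {B : Type u} [CStarAlgebra B] [PartialOrder B] [StarOrderedRing B] {τ : B →ₗ[ℂ] ℂ}

theorem tau_le (hτ : IsTracialState τ) (y : B) : ‖τ y‖ ≤ ‖y‖ := by
  have h1 := Phtr.tau_sq hτ y
  have h2 : (τ (star y * y)).re ≤ ‖y‖ ^ 2 := by
    calc (τ (star y * y)).re ≤ ‖τ (star y * y)‖ := Complex.re_le_norm _
      _ ≤ ‖star y * y‖ := Col.state_bound τ hτ _ (star_mul_self_nonneg y)
      _ = ‖y‖ ^ 2 := by rw [CStarRing.norm_star_mul_self, sq]
  exact abs_le_of_sq_le_sq' (h1.trans h2) (norm_nonneg _) |>.2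

theorem pmat_eq (hτ : IsTracialState τ) {n : ℕ} (x : CStarMatrix (Fin n) (Fin n) B)
    (i j : Fin n) : τ (star (x i j) * x i j) = (pmat τ x i j : ℂ) := by
  have h := hτ.pos (x i j)
  unfold pmat
  have h1 := (Complex.nonneg_iff.1 h).2
  apply Complex.ext
  · rw [Complex.ofReal_re]
  · rw [Complex.ofReal_im, ← h1]

theorem pmat_nonneg (hτ : IsTracialState τ) {n : ℕ} (x : CStarMatrix (Fin n) (Fin n) B)
    (i j : Fin n) : 0 ≤ pmat τ x i j := (Complex.nonneg_iff.1 (hτ.pos (x i j))).1

theorem pmat_le_one (hτ : IsTracialState τ) {n : ℕ} (x : CStarMatrix (Fin n) (Fin n) B)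
    (hx : ∀ i j, ‖x i j‖ ≤ 1) (i j : Fin n) : pmat τ x i j ≤ 1 := by
  unfold pmat
  calc (τ (star (x i j) * x i j)).re ≤ ‖τ (star (x i j) * x i j)‖ := Complex.re_le_norm _
    _ ≤ ‖star (x i j) * x i j‖ := tau_le hτ _
    _ ≤ 1 := nm2 (nms (hx i j)) (hx i j)

/-- the case of two different sets of letters -/
theorem caseB (h2 : K_avgone.{u}) (hτ : IsTracialState τ) {n : ℕ} (F : Fam B n) {ε : ℝ}
    (hε : 0 ≤ ε) (d : Fin n) (p q : Fin (F.k d + 1) → B)
    (hpq : ∀ y : B, ‖((F.k d + 1 : ℂ))⁻¹ • ∑ t, τ (y * p t) • q t‖ ≤ ε * ‖y‖)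
    (α β B1 B2 : F.Idx → B)
    (iα : ∀ s t, α (Function.update s d t) = α s) (iβ : ∀ s t, β (Function.update s d t) = β s)
    (i1 : ∀ s t, B1 (Function.update s d t) = B1 s) (i2 : ∀ s t, B2 (Function.update s d t) = B2 s)
    (nα : ∀ s, ‖α s‖ ≤ 1) (nβ : ∀ s, ‖β s‖ ≤ 1) (n1 : ∀ s, ‖B1 s‖ ≤ 1) (n2 : ∀ s, ‖B2 s‖ ≤ 1) :
    ‖fav F.Idx (fun s => τ (α s * p (s d) * β s) • (B1 s * q (s d) * B2 s))‖ ≤ ε := by
  have h3 := h2 n F.k B d (fun s => τ (α s * p (s d) * β s) • (B1 s * q (s d) * B2 s))
  have h4 : fav F.Idx (fun s => τ (α s * p (s d) * β s) • (B1 s * q (s d) * B2 s)) =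
      fav F.Idx (fun s => ((F.k d + 1 : ℂ))⁻¹ •
        ∑ t, τ (α (Function.update s d t) * p (Function.update s d t d) *
          β (Function.update s d t)) • (B1 (Function.update s d t) *
          q (Function.update s d t d) * B2 (Function.update s d t))) := h3
  rw [h4]
  apply fav_norm _ hε
  intro s
  have e1 : ∀ t, τ (α (Function.update s d t) * p (Function.update s d t d) *
      β (Function.update s d t)) • (B1 (Function.update s d t) *
      q (Function.update s d t d) * B2 (Function.update s d t)) =
      B1 s * (τ (β s * α s * p t) • q t) * B2 s := by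
    intro t
    rw [iα, iβ, i1, i2, Function.update_self, hτ.comm (α s * p t) (β s), ← mul_assoc,
      mul_smul_comm, smul_mul_assoc]
  rw [Finset.sum_congr rfl (fun t _ => e1 t), one_mul_sum]
  apply nm3 (n1 s) (n2 s)
  refine (hpq (β s * α s)).trans ?_
  calc ε * ‖β s * α s‖ ≤ ε * 1 := mul_le_mul_of_nonneg_left (nm2 (nβ s) (nα s)) hε
    _ = ε := mul_one ε

theorem word_main (h1 : K_indep.{u}) (h2 : K_avgone.{u}) (hτ : IsTracialState τ) {n : ℕ}
    (F : Fam B n) (X : Set B) (x : CStarMatrix (Fin n) (Fin n) B) (K : ℕ) (ε : ℝ) (hε : 0 ≤ ε)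
    (hF : F.Good τ X K ε) (hX : ∀ i j, x i j ∈ X ∨ star (x i j) ∈ X)
    (hx : ∀ i j, ‖x i j‖ ≤ 1) : ∀ (N : ℕ) (i : Fin n) (σ σ' : List (Fin n)), σ.length ≤ N →
    σ.Nodup → σ'.Perm σ → 4 * σ.length + 2 ≤ K →
    ‖fav F.Idx (fun s => star (rword x (F.val s) i σ) * rword x (F.val s) i σ') -
      algebraMap ℂ B (if σ = σ' then (pword (pmat τ x) i σ : ℂ) else 0)‖ ≤ 2 * σ.length * ε := by
  intro N
  induction N with
  | zero =>
    intro i σ σ' hN _ hp _
    have hσ : σ = [] := List.length_eq_zero_iff.mp (Nat.le_zero.mp hN)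
    subst hσ
    have hσ' : σ' = [] := hp.eq_nil
    subst hσ'
    have hcard : (Fintype.card F.Idx : ℂ) ≠ 0 := by
      have : Nonempty F.Idx := ⟨fun c => 0⟩
      exact_mod_cast Fintype.card_ne_zero
    simp only [rword, pword, star_one, mul_one, if_true, Complex.ofReal_one, map_one, fav,
      List.length_nil, Nat.cast_zero, mul_zero, zero_mul]
    rw [Finset.sum_const, Finset.card_univ, ← Nat.cast_smul_eq_nsmul ℂ, smul_smul,
      inv_mul_cancel₀ hcard, one_smul, sub_self, norm_zero]
  | succ N ih =>
    intro i σ σ' hN hnd hp hK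
    by_cases hσ0 : σ = []
    · exact ih i σ σ' (by rw [hσ0]; simp) hnd hp hK
    -- the largest letter
    obtain ⟨c, hcσ, hcmax⟩ : ∃ c ∈ σ, ∀ a ∈ σ, a ≤ c := by
      obtain ⟨a0, ha0⟩ := List.exists_mem_of_ne_nil σ hσ0
      obtain ⟨c, hc, hcm⟩ := Finset.exists_max_image σ.toFinset id ⟨a0, by simpa using ha0⟩
      refine ⟨c, by simpa using hc, fun a ha => hcm a (by simpa using ha)⟩
    have hnd' : σ'.Nodup := hp.nodup_iff.mpr hnd
    obtain ⟨s1, s2, rfl⟩ := List.append_of_mem hcσ
    obtain ⟨s1', s2', rfl⟩ := List.append_of_mem (hp.mem_iff.mpr hcσ)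
    obtain ⟨nd1, nd2, c1, c2, dj⟩ := split_nodup hnd
    obtain ⟨nd1', nd2', c1', c2', dj'⟩ := split_nodup hnd'
    have hlen : (s1 ++ c :: s2).length = s1.length + s2.length + 1 := by
      rw [List.length_append, List.length_cons]; omega
    have hlen' : (s1' ++ c :: s2').length = s1'.length + s2'.length + 1 := by
      rw [List.length_append, List.length_cons]; omega
    have hll : s1'.length + s2'.length = s1.length + s2.length := by
      have := hp.length_eq
      omega
    have lt1 : ∀ a ∈ s1, a < c := fun a ha =>
      lt_of_le_of_ne (hcmax a (List.mem_append_left _ ha)) (fun h => c1 (h ▸ ha))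
    have lt1' : ∀ a ∈ s1', a < c := fun a ha =>
      lt_of_le_of_ne (hcmax a (hp.mem_iff.mp (List.mem_append_left _ ha))) (fun h => c1' (h ▸ ha))
    -- notation
    set R : F.Idx → Fin n → List (Fin n) → B := fun s i l => rword x (F.val s) i l with hR
    have Rn : ∀ s i l, ‖R s i l‖ ≤ 1 := fun s i l => rword_norm x (F.val s) hx l i
    have Ru : ∀ (s : F.Idx) (d : Fin n) (t : Fin (F.k d + 1)) (i : Fin n) (l : List (Fin n)),
        d ∉ l → R (Function.update s d t) i l = R s i l := by
      intro s d t i l hd
      apply rword_congr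
      intro a ha
      have hne : a ≠ d := fun h => hd (h ▸ ha)
      show F.g a (Function.update s d t a) = F.g a (s a)
      rw [Function.update_of_ne hne]
    set m := lst i s1 with hm
    set m' := lst i s1' with hm'
    set A2 : F.Idx → B := fun s => star (x m c) * (star (R s i s1) * R s i s1') * x m' c with hA2
    have A2n : ∀ s, ‖A2 s‖ ≤ 1 := fun s => nm2 (nm2 (nms (hx _ _)) (nm2 (nms (Rn _ _ _)) (Rn _ _ _)))
      (hx _ _)
    have A2u : ∀ (s : F.Idx) (t : Fin (F.k c + 1)), A2 (Function.update s c t) = A2 s := by
      intro s t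
      simp only [hA2]
      rw [Ru s c t i s1 c1, Ru s c t i s1' c1']
    have A2w : ∀ s, F.IsWord X K c (A2 s) := by
      intro s
      have w1 : F.IsWord X 1 c (star (x m c)) := isWord_single F X (by
        rcases hX m c with h | h
        · exact Or.inr (Or.inl (by rwa [star_star]))
        · exact Or.inl h)
      have w2 : F.IsWord X 1 c (x m' c) := isWord_single F X (by
        rcases hX m' c with h | h
        · exact Or.inl h
        · exact Or.inr (Or.inl h))
      have w3 := isWord_star_rword F X x hX s c s1 i lt1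
      have w4 := isWord_rword F X x hX s c s1' i lt1'
      have w5 := isWord_mul F X (isWord_mul F X w1 (isWord_mul F X w3 w4)) w2
      refine isWord_mono F X ?_ w5
      omega
    -- the product of the two words
    have hprod : ∀ s : F.Idx, star (R s i (s1 ++ c :: s2)) * R s i (s1' ++ c :: s2') =
        star (R s c s2) * (star (F.g c (s c) : B) * A2 s * (F.g c (s c) : B)) * R s c s2' := by
      intro s
      simp only [hR, hA2]
      rw [rword_append, rword_append]
      simp only [star_mul, ← hm, ← hm', mul_assoc]
      rfl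
    -- step 1
    have step1 : ‖fav F.Idx (fun s => star (R s i (s1 ++ c :: s2)) * R s i (s1' ++ c :: s2')) -
        fav F.Idx (fun s => τ (A2 s) • (star (R s c s2) * R s c s2'))‖ ≤ ε := by
      have e1 : fav F.Idx (fun s => star (R s i (s1 ++ c :: s2)) * R s i (s1' ++ c :: s2')) =
          fav F.Idx (fun s => star (R s c s2) * (((F.k c + 1 : ℂ))⁻¹ •
            ∑ t, star (F.g c t : B) * A2 s * (F.g c t : B)) * R s c s2') := by
        have h3 := h2 n F.k B c
          (fun s => star (R s i (s1 ++ c :: s2)) * R s i (s1' ++ c :: s2'))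
        refine (show _ = _ from h3).trans ?_
        congr 1
        funext s
        rw [← one_mul_sum]
        congr 1
        apply Finset.sum_congr rfl
        intro t _
        rw [hprod, A2u, Ru s c t c s2 c2, Ru s c t c s2' c2', Function.update_self]
      rw [e1, fav_sub]
      apply fav_norm _ hε
      intro s
      have e2 : star (R s c s2) * (((F.k c + 1 : ℂ))⁻¹ •
            ∑ t, star (F.g c t : B) * A2 s * (F.g c t : B)) * R s c s2' -
            τ (A2 s) • (star (R s c s2) * R s c s2') =
          star (R s c s2) * (((F.k c + 1 : ℂ))⁻¹ •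
            ∑ t, star (F.g c t : B) * A2 s * (F.g c t : B) - algebraMap ℂ B (τ (A2 s))) *
            R s c s2' := by
        have e3 : star (R s c s2) * algebraMap ℂ B (τ (A2 s)) * R s c s2' =
            τ (A2 s) • (star (R s c s2) * R s c s2') := by
          rw [Algebra.algebraMap_eq_smul_one, mul_smul_comm, mul_one, smul_mul_assoc]
        rw [mul_sub, sub_mul, e3]
      rw [e2]
      exact nm3 (nms (Rn _ _ _)) (Rn _ _ _) (hF.avgl c (A2 s) (A2w s))
    have hlenR : (2:ℝ) * ((s1 ++ c :: s2).length : ℝ) * ε =
        2 * s1.length * ε + 2 * s2.length * ε + 2 * ε := by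
      rw [hlen]; push_cast; ring
    by_cases hperm : s1'.Perm s1
    · -- Case A
      have hperm2 : s2'.Perm s2 := by
        have a1 : (s1 ++ c :: s2').Perm (s1 ++ c :: s2) :=
          (List.Perm.append_right (c :: s2') hperm.symm).trans hp
        have a2 := (List.perm_append_left_iff s1).mp a1
        exact a2.cons_inv
      have ihA := ih i s1 s1' (by omega) nd1 hperm (by omega)
      have ihB := ih c s2 s2' (by omega) nd2 hperm2 (by omega)
      have hind : fav F.Idx (fun s => τ (A2 s) • (star (R s c s2) * R s c s2')) =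
          fav F.Idx (fun s => τ (A2 s)) • fav F.Idx (fun s => star (R s c s2) * R s c s2') := by
        have h3 := h1 n F.k B s1.toFinset (fun s => τ (A2 s))
          (fun s => star (R s c s2) * R s c s2') ?_ ?_
        · exact h3
        · intro s s' hss
          simp only [hA2, hR]
          have e1 : rword x (F.val s) i s1 = rword x (F.val s') i s1 := by
            apply rword_congr
            intro a ha
            show F.g a (s a) = F.g a (s' a)
            rw [hss a (by simpa using ha)]
          have e2 : rword x (F.val s) i s1' = rword x (F.val s') i s1' := by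
            apply rword_congr
            intro a ha
            show F.g a (s a) = F.g a (s' a)
            rw [hss a (by simpa using hperm.mem_iff.mp ha)]
          rw [e1, e2]
        · intro s s' hss
          simp only [hR]
          have e1 : rword x (F.val s) c s2 = rword x (F.val s') c s2 := by
            apply rword_congr
            intro a ha
            show F.g a (s a) = F.g a (s' a)
            rw [hss a (by
              rw [List.mem_toFinset]
              exact fun h => dj a h ha)]
          have e2 : rword x (F.val s) c s2' = rword x (F.val s') c s2' := by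
            apply rword_congr
            intro a ha
            show F.g a (s a) = F.g a (s' a)
            rw [hss a (by
              rw [List.mem_toFinset]
              exact fun h => dj a h (hperm2.mem_iff.mp ha))]
          rw [e1, e2]
      set a1 : ℂ := if s1 = s1' then (pword (pmat τ x) i s1 : ℂ) else 0 with ha1
      set a : ℂ := if s1 = s1' then (pword (pmat τ x) i s1 * pmat τ x m c : ℂ) else 0 with ha
      set b : ℂ := if s2 = s2' then (pword (pmat τ x) c s2 : ℂ) else 0 with hb
      have pb := pword_bd (pmat τ x) (pmat_nonneg hτ x) (pmat_le_one hτ x hx)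
      have ha_le : ‖a‖ ≤ 1 := by
        simp only [ha]
        split_ifs
        · rw [← Complex.ofReal_mul, Complex.norm_real, Real.norm_eq_abs, abs_of_nonneg
            (mul_nonneg (pb s1 i).1 (pmat_nonneg hτ x m c))]
          exact mul_le_one₀ (pb s1 i).2 (pmat_nonneg hτ x m c) (pmat_le_one hτ x hx m c)
        · simp
      have hfa : ‖fav F.Idx (fun s => τ (A2 s)) - a‖ ≤ 2 * s1.length * ε := by
        have e1 : fav F.Idx (fun s => τ (A2 s)) = τ (star (x m c) *
            fav F.Idx (fun s => star (R s i s1) * R s i s1') * x m' c) := by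
          rw [fav_mul, fav_map]
        have e2 : a = τ (star (x m c) * algebraMap ℂ B a1 * x m' c) := by
          rw [Algebra.algebraMap_eq_smul_one, mul_smul_comm, mul_one, smul_mul_assoc, map_smul,
            smul_eq_mul]
          simp only [ha, ha1]
          split_ifs with hs
          · have hmm : m' = m := by rw [hm, hm', hs]
            rw [hmm, pmat_eq hτ]
          · rw [zero_mul]
        rw [e1, e2, ← map_sub, ← sub_mul, ← mul_sub]
        exact (tau_le hτ _).trans (nm3 (nms (hx _ _)) (hx _ _) ihA)
      have hfh : ‖fav F.Idx (fun s => star (R s c s2) * R s c s2')‖ ≤ 1 :=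
        fav_norm _ zero_le_one (fun s => nm2 (nms (Rn _ _ _)) (Rn _ _ _))
      have hab : (if s1 ++ c :: s2 = s1' ++ c :: s2' then
          (pword (pmat τ x) i (s1 ++ c :: s2) : ℂ) else 0) = a * b := by
        simp only [ha, hb]
        by_cases q1 : s1 = s1'
        · by_cases q2 : s2 = s2'
          · rw [if_pos (by rw [q1, q2]), if_pos q1, if_pos q2, pword_append]
            push_cast
            rw [← hm]
          · rw [if_neg, if_pos q1, if_neg q2, mul_zero]
            intro h
            rw [q1] at h
            have := List.append_cancel_left h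
            rw [List.cons.injEq] at this
            exact q2 this.2
        · rw [if_neg, if_neg q1, zero_mul]
          intro h
          apply q1
          have hl1 : s1.length = s1'.length := hperm.symm.length_eq
          exact (List.append_inj h hl1).1
      have hfin : ‖fav F.Idx (fun s => τ (A2 s)) • fav F.Idx
          (fun s => star (R s c s2) * R s c s2') - algebraMap ℂ B (a * b)‖ ≤
          2 * s1.length * ε + 2 * s2.length * ε := by
        have e1 : fav F.Idx (fun s => τ (A2 s)) • fav F.Idx
            (fun s => star (R s c s2) * R s c s2') - algebraMap ℂ B (a * b) =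
            (fav F.Idx (fun s => τ (A2 s)) - a) •
              fav F.Idx (fun s => star (R s c s2) * R s c s2') +
            a • (fav F.Idx (fun s => star (R s c s2) * R s c s2') - algebraMap ℂ B b) := by
          rw [map_mul, Algebra.algebraMap_eq_smul_one a, smul_mul_assoc, one_mul, sub_smul,
            smul_sub]
          abel
        rw [e1]
        refine (norm_add_le _ _).trans (add_le_add ?_ ?_)
        · rw [norm_smul]
          calc _ ≤ (2 * s1.length * ε) * 1 := by
                apply mul_le_mul hfa hfh (norm_nonneg _)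
                positivity
            _ = _ := mul_one _
        · rw [norm_smul]
          calc _ ≤ 1 * (2 * s2.length * ε) := by
                apply mul_le_mul ha_le ihB (norm_nonneg _) zero_le_one
            _ = _ := one_mul _
      rw [hab, hlenR]
      rw [hind] at step1
      have tri := norm_sub_le_norm_sub_add_norm_sub
        (fav F.Idx (fun s => star (R s i (s1 ++ c :: s2)) * R s i (s1' ++ c :: s2')))
        (fav F.Idx (fun s => τ (A2 s)) • fav F.Idx (fun s => star (R s c s2) * R s c s2'))
        (algebraMap ℂ B (a * b))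
      linarith
    · -- Case B
      have hne : s1 ++ c :: s2 ≠ s1' ++ c :: s2' := by
        intro h
        apply hperm
        -- the position of `c` is unique
        have hs : s1 = s1' := by
          rcases List.append_eq_append_iff.mp h with ⟨w, hw1, hw2⟩ | ⟨w, hw1, hw2⟩
          · cases w with
            | nil => simpa using hw1.symm
            | cons z w =>
              exfalso
              rw [List.cons_append, List.cons.injEq] at hw2
              apply c1'
              rw [hw1, hw2.1]
              simp
          · cases w with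
            | nil => simpa using hw1
            | cons z w =>
              exfalso
              rw [List.cons_append, List.cons.injEq] at hw2
              apply c1
              rw [hw1, hw2.1]
              simp
        rw [hs]
      rw [if_neg hne, map_zero, sub_zero, hlenR]
      have hkey : ‖fav F.Idx (fun s => τ (A2 s) • (star (R s c s2) * R s c s2'))‖ ≤ ε := by
        have hd : ∃ d, (d ∈ s1 ∧ d ∉ s1') ∨ (d ∈ s1' ∧ d ∉ s1) := by
          by_contra hcon
          push Not at hcon
          apply hperm
          rw [List.perm_ext_iff_of_nodup nd1' nd1]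
          intro a
          constructor
          · intro h; exact (hcon a).2 h
          · intro h; exact (hcon a).1 h
        obtain ⟨d, hd | hd⟩ := hd
        · -- first case
          obtain ⟨hd1, hd2⟩ := hd
          have hdc : d ≠ c := (lt1 d hd1).ne
          have hds2 : d ∉ s2 := dj d hd1
          have hds2' : d ∈ s2' := by
            have h3 : d ∈ s1' ++ c :: s2' := hp.mem_iff.mpr (List.mem_append_left _ hd1)
            rcases List.mem_append.mp h3 with h4 | h4
            · exact absurd h4 hd2
            · rcases List.mem_cons.mp h4 with h5 | h5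
              · exact absurd h5 hdc
              · exact h5
          obtain ⟨t1, t2, ht⟩ := List.append_of_mem hd1
          obtain ⟨u1, u2, hu⟩ := List.append_of_mem hds2'
          rw [ht] at nd1
          rw [hu] at nd2'
          obtain ⟨-, -, p1, p2, -⟩ := split_nodup nd1
          obtain ⟨-, -, p3, p4, -⟩ := split_nodup nd2'
          have hB := caseB h2 hτ F hε d (fun t => star (F.g d t : B)) (fun t => (F.g d t : B))
            (hF.coefl d)
            (fun s => star (x m c) * star (R s d t2))
            (fun s => star (x (lst i t1) d) * star (R s i t1) * R s i s1' * x m' c)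
            (fun s => star (R s c s2) * (R s c u1 * x (lst c u1) d))
            (fun s => R s d u2)
            (fun s t => by rw [Ru s d t d t2 p2])
            (fun s t => by rw [Ru s d t i t1 p1, Ru s d t i s1' hd2])
            (fun s t => by rw [Ru s d t c s2 hds2, Ru s d t c u1 p3])
            (fun s t => by rw [Ru s d t d u2 p4])
            (fun s => nm2 (nms (hx _ _)) (nms (Rn _ _ _)))
            (fun s => nm2 (nm2 (nm2 (nms (hx _ _)) (nms (Rn _ _ _))) (Rn _ _ _)) (hx _ _))
            (fun s => nm2 (nms (Rn _ _ _)) (nm2 (Rn _ _ _) (hx _ _)))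
            (fun s => Rn _ _ _)
          refine le_trans (le_of_eq ?_) hB
          congr 2
          funext s
          have e1 : A2 s = star (x m c) * star (R s d t2) * star (F.g d (s d) : B) *
              (star (x (lst i t1) d) * star (R s i t1) * R s i s1' * x m' c) := by
            have e2 : R s i s1 = R s i t1 * (x (lst i t1) d * (F.g d (s d) : B) * R s d t2) := by
              rw [ht]
              exact rword_append x (F.val s) d t2 t1 i
            simp only [hA2]
            rw [e2]
            simp only [star_mul, mul_assoc]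
          have e3 : R s c s2' = R s c u1 * (x (lst c u1) d * (F.g d (s d) : B) * R s d u2) := by
            rw [hu]
            exact rword_append x (F.val s) d u2 u1 c
          rw [e1, e3]
          simp only [mul_assoc]
        · -- second case
          obtain ⟨hd1, hd2⟩ := hd
          have hdc : d ≠ c := (lt1' d hd1).ne
          have hds2' : d ∉ s2' := dj' d hd1
          have hds2 : d ∈ s2 := by
            have h3 : d ∈ s1 ++ c :: s2 := hp.mem_iff.mp (List.mem_append_left _ hd1)
            rcases List.mem_append.mp h3 with h4 | h4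
            · exact absurd h4 hd2
            · rcases List.mem_cons.mp h4 with h5 | h5
              · exact absurd h5 hdc
              · exact h5
          obtain ⟨t1, t2, ht⟩ := List.append_of_mem hd1
          obtain ⟨u1, u2, hu⟩ := List.append_of_mem hds2
          rw [ht] at nd1'
          rw [hu] at nd2
          obtain ⟨-, -, p1, p2, -⟩ := split_nodup nd1'
          obtain ⟨-, -, p3, p4, -⟩ := split_nodup nd2
          have hB := caseB h2 hτ F hε d (fun t => (F.g d t : B)) (fun t => star (F.g d t : B))
            (hF.coefr d)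
            (fun s => star (x m c) * star (R s i s1) * (R s i t1 * x (lst i t1) d))
            (fun s => R s d t2 * x m' c)
            (fun s => star (R s d u2))
            (fun s => star (x (lst c u1) d) * star (R s c u1) * R s c s2')
            (fun s t => by rw [Ru s d t i s1 hd2, Ru s d t i t1 p1])
            (fun s t => by rw [Ru s d t d t2 p2])
            (fun s t => by rw [Ru s d t d u2 p4])
            (fun s t => by rw [Ru s d t c u1 p3, Ru s d t c s2' hds2'])
            (fun s => nm2 (nm2 (nms (hx _ _)) (nms (Rn _ _ _))) (nm2 (Rn _ _ _) (hx _ _)))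
            (fun s => nm2 (Rn _ _ _) (hx _ _))
            (fun s => nms (Rn _ _ _))
            (fun s => nm2 (nm2 (nms (hx _ _)) (nms (Rn _ _ _))) (Rn _ _ _))
          refine le_trans (le_of_eq ?_) hB
          congr 2
          funext s
          have e1 : A2 s = star (x m c) * star (R s i s1) * (R s i t1 * x (lst i t1) d) *
              (F.g d (s d) : B) * (R s d t2 * x m' c) := by
            have e2 : R s i s1' = R s i t1 * (x (lst i t1) d * (F.g d (s d) : B) * R s d t2) := by
              rw [ht]
              exact rword_append x (F.val s) d t2 t1 i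
            simp only [hA2]
            rw [e2]
            simp only [mul_assoc]
          have e3 : R s c s2 = R s c u1 * (x (lst c u1) d * (F.g d (s d) : B) * R s d u2) := by
            rw [hu]
            exact rword_append x (F.val s) d u2 u1 c
          rw [e1, e3]
          simp only [star_mul, mul_assoc]
      have tri : ‖fav F.Idx (fun s => star (R s i (s1 ++ c :: s2)) * R s i (s1' ++ c :: s2'))‖ ≤
          ε + ε := by
        have := norm_sub_norm_le
          (fav F.Idx (fun s => star (R s i (s1 ++ c :: s2)) * R s i (s1' ++ c :: s2')))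
          (fav F.Idx (fun s => τ (A2 s) • (star (R s c s2) * R s c s2')))
        linarith
      have z1 : (0:ℝ) ≤ 2 * s1.length * ε := by positivity
      have z2 : (0:ℝ) ≤ 2 * s2.length * ε := by positivity
      linarith

end main

end A06

theorem prove3_word (h1 : K_indep.{u}) (h2 : K_avgone.{u}) : K_word.{u} := by
  intro B _ _ _ τ hτ n F X x K ε hε hF hX hx i σ σ' hnd hp hK
  exact A06.word_main h1 h2 hτ F X x K ε hε hF hX hx σ.length i σ σ' le_rfl hnd hp hK

end H759R2.Kad
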